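import Pool.Agent.K4H65.DM.FinTor

/-!
MP_45e720_ag, Q1: maps from complex tori and hyperbolicity, for the images, under finite morphisms
with fibres of at most `r` points, of varieties with multiple fibres over projective lines.

`W = {Ψ = 0}` and `X = {Φ = 0}` are projective varieties, `G : W → X` is a finite surjective morphism
with fibres of at most `r` points (`Mor`, `Onto`, `FibresLe`), and `b 1, ..., b n` are morphisms from
`W` to the projective line (`LineMap`). The fibre of `b p` over each point `c` of a finite set `A p`
has multiplicity at least `mu p c` (`LineMap.Multiple`). The multiplicities are large with respect to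
`r` (`Wide`): for all `g, s ≥ 1` with `g s ≤ r` and all `p` the sum of the numbers
`1 - 1 / ⌈mu p c / g⌉`, `c ∈ A p`, is larger than `2 s`. This holds for instance if `mu p c > r` for
all `c ∈ A p` and `∑ (1 - 1 / mu p c) > 2 r` (`wide_example`).

For example `W` can be a finite cover of a product `C_1 × ... × C_n / H`, where the finite group `H`
acts diagonally and without fixed points on the product and with quotient `P^1` on the curves `C_i`.
No assumption is made on the singularities of `X` and on the branch locus of `G`, and `X` does not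
map to the lines: an entire curve in `X` lifts only to an algebroid curve in `W`.

The images under `G` of the fibres of `(b 1, ..., b n) : W → (P^1)^n` are closed subsets of `X`
(`fibreImage`).

1. The images of all nonconstant entire curves in `X` lie in the images of the fibres.
2. Q1 holds for `X` if it holds for the images of the fibres: if every holomorphic map from a complex
   torus to `X` is constant, then every holomorphic map from the complex plane to `X` is constant.
3. If `(b 1, ..., b n)` is finite, then Q1 holds for `X`: every holomorphic map from the complex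
   plane to `X` is constant, and also all closed subvarieties of positive dimension of `X` are of
   general type.

The definitions are in `Pool/Agent/K4H65/DM/FinDefs.lean` (`LineMap`, `At`, `Multiple`,
`FiniteFibres`, `fibreImage`), `Pool/Agent/K4H65/DM/Defs.lean` (`Wide`),
`Pool/Agent/Y221/FQ/Defs.lean` (`Mor`, `Onto`, `FibresLe`, `Entire`, `AllGeneral`) and
`Pool/Agent/TH182/TC/Core.lean` (`TorusRigid`).
-/

set_option autoImplicit false

namespace Pool.Agent.K4H65.Variants.FiniteQuotientsMultipleFibres

open Pool.Agent.K4H65.DM Pool.Agent.Y221.FQ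
open Pool.Agent.W602.GT (Cone IsForm)
open Pool.Agent.TH182.TC (TorusRigid)

/-- **Maps from tori and hyperbolicity of the finite images of varieties with multiple fibres.** -/
theorem result {m M n r : ℕ} {κ μ : Type} {Ψ : κ → MvPolynomial (Fin (m + 1)) ℂ}
    {Φ : μ → MvPolynomial (Fin (M + 1)) ℂ} {G : Fin (M + 1) → MvPolynomial (Fin (m + 1)) ℂ}
    (hΨ : ∀ e, IsForm (Ψ e)) (hG : Mor Ψ Φ G) (hon : Onto Ψ Φ G) (hfib : FibresLe Ψ G r)
    (b : Fin n → LineMap Ψ) (A : Fin n → Finset ℂ) (mu : Fin n → ℂ → ℕ)
    (hb : ∀ p, (b p).Multiple (A p) (mu p)) (hwide : ∀ p, Wide r (A p) (mu p)) :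
    (∀ f, Entire Φ f → ∃ q : Fin n → Fin 2 → ℂ, ∀ t, ∃ x ∈ Cone Ψ,
      (∀ p, (b p).At x (q p)) ∧ im G x = f t) ∧
    ((∀ q, TorusRigid (fibreImage G b q) → ∀ f, ¬ Entire (fibreImage G b q) f) →
      TorusRigid Φ → ∀ f, ¬ Entire Φ f) ∧
    (FiniteFibres b → (∀ f, ¬ Entire Φ f) ∧ AllGeneral Φ) := by
  refine ⟨fun f hf => ?_, fun h hT f hf => ?_, fun hfin =>
    ⟨fun f hf => entire_fin hΨ hG hon hfib hb hwide hfin hf,
      general_fin hΨ hG hon hfib hb hwide hfin⟩⟩
  · obtain ⟨q, hq⟩ := entire_fibre hΨ hG hon hfib hb hwide hf
    exact ⟨q, fun t => closed_fibre hΨ hG (hq.mem t)⟩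
  · obtain ⟨q, hq⟩ := entire_fibre hΨ hG hon hfib hb hwide hf
    exact h q (torus_fibre hΨ hG hT) f hq

/-- The simplest case of the condition on the multiplicities. -/
theorem wide_example {r : ℕ} {S : Finset ℂ} {m : ℂ → ℕ} (hm : ∀ c ∈ S, r < m c)
    (hsum : 2 * (r : ℝ) < ∑ c ∈ S, (1 - 1 / (m c : ℝ))) : Wide r S m :=
  wide_of hm hsum

end Pool.Agent.K4H65.Variants.FiniteQuotientsMultipleFibres
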